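import Mathlib
import Pool.Agent.Helper394.Wrap

/-!
Fourier coefficients of lazy walks on cyclic groups: every nontrivial one lies in `[1/8, 7/8]`
for the bad Cayley graphs of `Helper394`.
-/

open Finset

namespace Pool.Agent.Q209.Conv

variable {N : ℕ} [NeZero N]

/-- step distribution of the lazy walk -/
noncomputable def lazyMu (S : Finset (ZMod N)) (z : ZMod N) : ℝ :=
  (if z = 0 then 1 / 2 else 0) + (if z ∈ S then 1 / (2 * (S.card : ℝ)) else 0)

theorem lazyMu_mulVec (S : Finset (ZMod N)) (f : ZMod N → ℝ) :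
    (Matrix.of fun x y : ZMod N => lazyMu S (y - x)).mulVec f = Helper394.V S f := by
  ext x
  rw [Helper394.V_apply, Helper394.U_apply]
  simp only [Matrix.mulVec, dotProduct, Matrix.of_apply, lazyMu, add_mul, ite_mul, zero_mul,
    sub_eq_zero]
  rw [Finset.sum_add_distrib]
  congr 1
  · rw [Finset.sum_ite_eq' univ x]
    simp
    ring
  · rw [← Finset.sum_filter]
    rw [div_div, Finset.sum_div]
    refine Finset.sum_bij' (fun y _ => y - x) (fun s _ => x + s) ?_ ?_ ?_ ?_ ?_
    · intro y hy; simpa using hy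
    · intro s hs; simpa using hs
    · intro y _; simp
    · intro s _; simp
    · intro y _
      simp only [add_sub_cancel]
      ring

theorem lazyMu_symm (S : Finset (ZMod N)) (hS : ∀ s ∈ S, -s ∈ S) (z : ZMod N) :
    lazyMu S (-z) = lazyMu S z := by
  have h2 : (-z ∈ S) ↔ (z ∈ S) := by
    constructor
    · intro h; have := hS _ h; rwa [neg_neg] at this
    · intro h; exact hS _ h
  simp only [lazyMu, h2, neg_eq_zero]

theorem lazyMu_nonneg (S : Finset (ZMod N)) (z : ZMod N) : 0 ≤ lazyMu S z := by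
  unfold lazyMu
  split_ifs <;> positivity

theorem lazyMu_sum (S : Finset (ZMod N)) (hS : S.Nonempty) : ∑ z, lazyMu S z = 1 := by
  have h := congrFun (lazyMu_mulVec S (fun _ => 1)) 0
  have h2 := Helper394.V_pow_const S hS 1 1
  rw [pow_one] at h2
  rw [h2] at h
  simpa [Matrix.mulVec, dotProduct] using h

/-- the value of the standard character -/
theorem char_eq (j x : ZMod N) :
    Complex.exp (2 * Real.pi * Complex.I * ((j.val : ℂ) * (x.val : ℂ)) / (N : ℂ)) =
      ZMod.stdAddChar (j * x) := by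
  have h : (j * x : ZMod N) = (((j.val * x.val : ℕ) : ℤ) : ZMod N) := by
    push_cast
    rw [ZMod.natCast_zmod_val, ZMod.natCast_zmod_val]
  rw [h, ZMod.stdAddChar_coe]
  push_cast
  ring_nf

/-- The Fourier coefficient is real for symmetric measures. -/
theorem four_real (μ : ZMod N → ℝ) (hμ : ∀ z, μ (-z) = μ z) (j : ZMod N) :
    ∑ x, (μ x : ℂ) * Complex.exp (2 * Real.pi * Complex.I * ((j.val : ℂ) * (x.val : ℂ)) / (N : ℂ))
      = ((∑ x, μ x * Real.cos (2 * Real.pi * ((j.val : ℝ) * (x.val : ℝ)) / (N : ℝ)) : ℝ) : ℂ) := by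
  have hre : ∀ x : ZMod N, (Complex.exp (2 * Real.pi * Complex.I *
      ((j.val : ℂ) * (x.val : ℂ)) / (N : ℂ))).re =
      Real.cos (2 * Real.pi * ((j.val : ℝ) * (x.val : ℝ)) / (N : ℝ)) := by
    intro x
    have : (2 * Real.pi * Complex.I * ((j.val : ℂ) * (x.val : ℂ)) / (N : ℂ)) =
        ((2 * Real.pi * ((j.val : ℝ) * (x.val : ℝ)) / (N : ℝ) : ℝ) : ℂ) * Complex.I := by
      push_cast; ring
    rw [this, Complex.exp_ofReal_mul_I_re]
  set c : ℂ := ∑ x, (μ x : ℂ) *
    Complex.exp (2 * Real.pi * Complex.I * ((j.val : ℂ) * (x.val : ℂ)) / (N : ℂ)) with hc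
  have hconj : (starRingEnd ℂ) c = c := by
    rw [hc, map_sum]
    simp only [char_eq, map_mul, Complex.conj_ofReal]
    have : ∀ x : ZMod N, (starRingEnd ℂ) (ZMod.stdAddChar (j * x) : ℂ) =
        ZMod.stdAddChar (j * (-x)) := by
      intro x
      rw [mul_neg, AddChar.map_neg_eq_conj]
    simp only [this]
    rw [← Equiv.sum_comp (Equiv.neg (ZMod N))]
    simp [hμ]
  have him : c.im = 0 := Complex.conj_eq_iff_im.mp hconj
  apply Complex.ext
  · rw [Complex.ofReal_re, hc, Complex.re_sum]
    refine Finset.sum_congr rfl fun x _ => ?_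
    rw [Complex.re_ofReal_mul, hre]
  · rw [Complex.ofReal_im, him]

theorem four_mem (S : Finset (ZMod N)) {T : ℕ} (h : Helper394.Bad S T) (hS : ∀ s ∈ S, -s ∈ S)
    (j : ZMod N) (hj : j ≠ 0) :
    1 / 8 ≤ ∑ x, lazyMu S x * Real.cos (2 * Real.pi * ((j.val : ℝ) * (x.val : ℝ)) / (N : ℝ)) ∧
    ∑ x, lazyMu S x * Real.cos (2 * Real.pi * ((j.val : ℝ) * (x.val : ℝ)) / (N : ℝ)) ≤ 7 / 8 := by
  set c : ℝ := ∑ x, lazyMu S x * Real.cos (2 * Real.pi * ((j.val : ℝ) * (x.val : ℝ)) / (N : ℝ))
    with hc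
  have hcC := four_real (lazyMu S) (lazyMu_symm S hS) j
  rw [← hc] at hcC
  simp only [char_eq] at hcC
  set P : Matrix (ZMod N) (ZMod N) ℝ := Matrix.of fun x y : ZMod N => lazyMu S (y - x) with hPdef
  have hP : ∀ f, P.mulVec f = Helper394.V S f := lazyMu_mulVec S
  let f : ZMod N → ℝ := fun x => (ZMod.stdAddChar (j * x) : ℂ).re
  have hf0 : f 0 = 1 := by simp [f]
  have hfne : f ≠ 0 := by
    intro hcon
    have := congrFun hcon 0
    rw [hf0] at this
    simp at this
  -- eigenvector
  have hev : P.mulVec f = c • f := by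
    ext x
    have e1 : ∑ y, (lazyMu S (y - x) : ℂ) * (ZMod.stdAddChar (j * y) : ℂ) =
        (c : ℂ) * ZMod.stdAddChar (j * x) := by
      rw [← hcC, Finset.sum_mul, ← Equiv.sum_comp (Equiv.addLeft x)]
      refine Finset.sum_congr rfl fun y _ => ?_
      simp only [Equiv.coe_addLeft, add_sub_cancel_left, mul_add, AddChar.map_add_eq_mul]
      ring
    have e2 := congrArg Complex.re e1
    rw [Complex.re_sum, Complex.re_ofReal_mul] at e2
    simp only [Complex.re_ofReal_mul] at e2
    simp only [Matrix.mulVec, dotProduct, hPdef, Matrix.of_apply, Pi.smul_apply, smul_eq_mul]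
    exact e2
  have hspec : c ∈ spectrum ℝ P := by
    rw [← Matrix.spectrum_toLin', ← Module.End.hasEigenvalue_iff_mem_spectrum]
    exact Module.End.hasEigenvalue_of_hasEigenvector
      (Module.End.hasEigenvector_iff.mpr ⟨Module.End.mem_eigenspace_iff.mpr (by
        rw [Matrix.toLin'_apply]; exact hev), hfne⟩)
  have hne1 : c ≠ 1 := by
    intro hc1
    rw [hc1, one_smul] at hev
    have hpow : ∀ t : ℕ, (P ^ t).mulVec f = f := by
      intro t
      induction t with
      | zero => simp
      | succ t ih => rw [pow_succ, ← Matrix.mulVec_mulVec, hev, ih]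
    have hsum : ∑ x, f x = 0 := by
      have h1 : ∑ x, (ZMod.stdAddChar (j * x) : ℂ) = 0 := by
        have hprim := ZMod.isPrimitive_stdAddChar N hj
        have := AddChar.sum_eq_zero_of_ne_one hprim
        simpa [AddChar.mulShift_apply] using this
      have h2 := congrArg Complex.re h1
      rw [Complex.re_sum] at h2
      exact h2
    have hG : (0 : ℝ) < Fintype.card (ZMod N) := by exact_mod_cast Fintype.card_pos
    obtain ⟨t, ht⟩ := Helper394.fact_conv h hP (1 / (2 * Fintype.card (ZMod N))) (by positivity)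
    have h3 := congrFun (hpow t) 0
    rw [hf0] at h3
    simp only [Matrix.mulVec, dotProduct] at h3
    have h4 : ∑ y, (P ^ t) 0 y * f y =
        ∑ y, ((P ^ t) 0 y - 1 / (Fintype.card (ZMod N) : ℝ)) * f y := by
      simp only [sub_mul, Finset.sum_sub_distrib, ← Finset.mul_sum, hsum, mul_zero, sub_zero]
    rw [h4] at h3
    have hfb : ∀ y, |f y| ≤ 1 := by
      intro y
      calc |f y| ≤ ‖(ZMod.stdAddChar (j * y) : ℂ)‖ := Complex.abs_re_le_norm _
        _ = 1 := AddChar.norm_apply _ _
    have h5 : (1 : ℝ) ≤ 1 / 2 := by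
      calc (1 : ℝ) = |∑ y, ((P ^ t) 0 y - 1 / (Fintype.card (ZMod N) : ℝ)) * f y| := by
            rw [h3]; simp
        _ ≤ ∑ y, |((P ^ t) 0 y - 1 / (Fintype.card (ZMod N) : ℝ)) * f y| :=
            Finset.abs_sum_le_sum_abs _ _
        _ ≤ ∑ _y : ZMod N, 1 / (2 * (Fintype.card (ZMod N) : ℝ)) := by
            refine Finset.sum_le_sum fun y _ => ?_
            rw [abs_mul]
            calc _ ≤ |(P ^ t) 0 y - 1 / (Fintype.card (ZMod N) : ℝ)| * 1 := by
                  gcongr; exact hfb y
              _ ≤ _ := by rw [mul_one]; exact ht 0 y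
        _ = 1 / 2 := by
            simp only [Finset.sum_const, Finset.card_univ, nsmul_eq_mul]
            field_simp
    norm_num at h5
  exact Helper394.fact_spec h hP c hspec hne1

end Pool.Agent.Q209.Conv
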