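import Mathlib
import Pool.Agent.Q209.Conv.Four

/-!
Convolution powers and powers of the transition matrix; the TV facts for the bad walks.
-/

open Finset

namespace Pool.Agent.Q209.Conv

variable {N : ℕ} [NeZero N]

theorem pow_shift (μ : ZMod N → ℝ) (t : ℕ) (x y : ZMod N) :
    ((Matrix.of fun x y : ZMod N => μ (y - x)) ^ t) x y =
      ((Matrix.of fun x y : ZMod N => μ (y - x)) ^ t) 0 (y - x) := by
  induction t generalizing y with
  | zero =>
    simp only [pow_zero, Matrix.one_apply]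
    congr 1
    rw [eq_iff_iff, eq_comm (a := (0 : ZMod N)), sub_eq_zero, eq_comm]
  | succ t ih =>
    rw [pow_succ, Matrix.mul_apply, Matrix.mul_apply]
    rw [← Equiv.sum_comp (Equiv.addRight x)]
    refine Finset.sum_congr rfl fun z _ => ?_
    rw [ih]
    simp only [Equiv.coe_addRight, add_sub_cancel_right, Matrix.of_apply]
    congr 2
    ring

/-- the facts used in the results, for a measure on `ZMod N` given by `lazyMu S` -/
theorem facts (n : ℕ) : ∃ (N : ℕ) (_ : NeZero N) (S : Finset (ZMod N)), n + 64 ≤ N ∧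
    (∀ s ∈ S, -s ∈ S) ∧ S.Nonempty ∧ AddSubgroup.closure (S : Set (ZMod N)) = ⊤ ∧
    (∀ j : ZMod N, j ≠ 0 →
      1 / 8 ≤ ∑ x, lazyMu S x * Real.cos (2 * Real.pi * ((j.val : ℝ) * (x.val : ℝ)) / (N : ℝ)) ∧
      ∑ x, lazyMu S x * Real.cos (2 * Real.pi * ((j.val : ℝ) * (x.val : ℝ)) / (N : ℝ)) ≤ 7 / 8) ∧
    (∀ t ≤ n + 64, 1 / 2 < (1 / 2 : ℝ) * ∑ y : ZMod N,
      |((Matrix.of fun x y : ZMod N => lazyMu S (y - x)) ^ t) 0 y - 1 / (N : ℝ)|) ∧
    ((1 / 2 : ℝ) * ∑ y : ZMod N,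
      |((Matrix.of fun x y : ZMod N => lazyMu S (y - x)) ^ (2 * ((n + 64) / 8) + 1)) 0 y -
        1 / (N : ℝ)| ≤ 1 - 1 / 2000) ∧
    (∀ ε : ℝ, 0 < ε → ∃ t : ℕ, (1 / 2 : ℝ) * ∑ y : ZMod N,
      |((Matrix.of fun x y : ZMod N => lazyMu S (y - x)) ^ t) 0 y - 1 / (N : ℝ)| ≤ ε) ∧
    (∃ t : ℕ, ∀ y : ZMod N, 0 < ((Matrix.of fun x y : ZMod N => lazyMu S (y - x)) ^ t) 0 y) := by
  obtain ⟨N, hN, S, hTN, hS⟩ := Helper394.exists_bad (n + 64) (by omega)
  have hP : ∀ f, (Matrix.of fun x y : ZMod N => lazyMu S (y - x)).mulVec f = Helper394.V S f :=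
    lazyMu_mulVec S
  refine ⟨N, hN, S, hTN, hS.neg, hS.nonempty, ?_, four_mem S hS hS.neg, ?_, ?_, ?_, ?_⟩
  · rw [eq_top_iff]
    intro x _
    refine hS.closed (AddSubgroup.closure (S : Set (ZMod N)) : Set (ZMod N)) 0
      (AddSubgroup.zero_mem _) ?_ x
    intro y hy s hs
    exact AddSubgroup.add_mem _ hy (AddSubgroup.subset_closure hs)
  · intro t ht
    have h := Helper394.fact_lower hS hP t ht
    rw [ZMod.card] at h
    linarith
  · have h := Helper394.fact_upper hS hP ((n + 64) / 8) (by omega) 0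
    rw [ZMod.card] at h
    exact h
  · intro ε hε
    have hG : (0 : ℝ) < (N : ℝ) := by exact_mod_cast Nat.pos_of_ne_zero (NeZero.ne N)
    obtain ⟨t, ht⟩ := Helper394.fact_conv hS hP (ε / N) (by positivity)
    refine ⟨t, ?_⟩
    calc (1 / 2 : ℝ) * ∑ y : ZMod N,
        |((Matrix.of fun x y : ZMod N => lazyMu S (y - x)) ^ t) 0 y - 1 / (N : ℝ)|
        ≤ (1 / 2 : ℝ) * ∑ _y : ZMod N, ε / N := by
          gcongr with y
          have := ht 0 y
          rwa [ZMod.card] at this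
      _ = ε / 2 := by
          simp only [Finset.sum_const, Finset.card_univ, nsmul_eq_mul, ZMod.card]
          field_simp
      _ ≤ ε := by linarith
  · refine ⟨2 * ((n + 64) / 8) + 1, fun y => ?_⟩
    have h := Helper394.fact_minor hS hP ((n + 64) / 8) (by omega) 0 y
    refine lt_of_lt_of_le ?_ h
    have : (0 : ℝ) < (Fintype.card (ZMod N) : ℝ) := by exact_mod_cast Fintype.card_pos
    positivity

end Pool.Agent.Q209.Conv
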